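import Pool.Agent.Work.MP_f36782_h4.Positive
import Pool.Agent.Work.MP_f36782_h4.Negative
import Pool.Agent.Work.MP_f36782_h82.Unbounded
import Pool.Agent.Work.MP_f36782_h82.Bounded

set_option autoImplicit false

/-!
# Two dichotomies for the Ramsey property of invariant sets under AD

Authors: helper4 (patterns), helper82 (scales), helper69, helper20.

For invariance under a countable set of index patterns, and for invariance under moving the elements
of a set within the scale of a set of functions, it is decided whether the Ramsey property of all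
invariant sets is provable from AD or equivalent to the Ramsey property of all sets.
-/

namespace Pool.Agent.Results.MP_f36782_lc.Dichotomies

open Pool.Agent.Work.RamseyAD Filter

/-- The points of Cantor space `C` code the sets of natural numbers.  All games on `ℕ` whose payoff
set is `f ⁻¹' A`, `f` continuous, are determined. -/
def DeterminedSet (A : Set C) : Prop := ∀ f : (ℕ → ℕ) → C, Continuous f → Determined (f ⁻¹' A)

/-- Below `X` there is a homogeneous infinite set `H`. -/
def RamseyBelow (X : C) (A : Set C) : Prop := ∃ H, Inf H ∧ Sub H X ∧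
  ((∀ x, Inf x → Sub x H → x ∈ A) ∨ (∀ x, Inf x → Sub x H → x ∉ A))

/-- `F` is closed under complements, countable unions, continuous preimages and the category
quantifier, and its members are determined. -/
structure Family (F : Set (Set C)) : Prop where
  compl : ∀ A ∈ F, Aᶜ ∈ F
  union : ∀ A : ℕ → Set C, (∀ n, A n ∈ F) → (⋃ n, A n) ∈ F
  preimage : ∀ A ∈ F, ∀ f : C → C, Continuous f → f ⁻¹' A ∈ F
  category : ∀ A ∈ F, {x | ∀ᶠ y in residual C, join x y ∈ A} ∈ F
  determined : ∀ A ∈ F, DeterminedSet A

/-- the domain of the composition of the partial injections `b⁻¹ ∘ a`, `(a, b) = r 0, …, r (N - 1)` -/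
def domain (N : ℕ) (r : ℕ → (ℕ → ℕ) × (ℕ → ℕ)) : Set ℕ :=
  {n | ∃ k : ℕ → ℕ, k 0 = n ∧ ∀ i < N, (r i).1 (k i) = (r i).2 (k (i + 1))}

/-- `A` is monotone for the patterns in `R`, for the sequences of elements of `X`: `x ∘ b ∈ A` implies
`x ∘ a ∈ A` for `(a, b) ∈ R` (a strictly increasing sequence stands for its range). -/
def Monotone' (R : Set ((ℕ → ℕ) × (ℕ → ℕ))) (X : C) (A : Set C) : Prop :=
  ∀ r ∈ R, ∀ x : ℕ → ℕ, StrictMono x → (∀ n, X (x n) = true) →
    chi (Set.range (x ∘ r.2)) ∈ A → chi (Set.range (x ∘ r.1)) ∈ A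

/-- `G` is bounded modulo finite sets. -/
def Bounded (G : Set (ℕ → ℕ)) : Prop := ∃ h : ℕ → ℕ, ∀ g ∈ G, ∀ᶠ n in atTop, g n ≤ h n

/-- `x` and `y` are `g`-close: all but finitely many elements `n` of each of them have a partner `m`
in the other one, with `m ≤ max n (g n)` and `n ≤ max m (g m)`. -/
def Close (g : ℕ → ℕ) (x y : C) : Prop :=
  ∀ᶠ n in atTop, (x n = true → ∃ m, y m = true ∧ m ≤ max n (g n) ∧ n ≤ max m (g m)) ∧
    (y n = true → ∃ m, x m = true ∧ m ≤ max n (g n) ∧ n ≤ max m (g m))

theorem Family.closed {F : Set (Set C)} (hF : Family F) : Closed F :=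
  ⟨hF.compl, hF.union, hF.preimage, hF.category, hF.determined⟩

/-- **Patterns.**  Let `R` be a countable set of pairs of strictly increasing maps.  Either some
composition of finitely many of the maps `b⁻¹ ∘ a`, `(a, b) ∈ R`, is finite, and then all determined
sets which are monotone below `X` are Ramsey below `X`.  Or all these compositions are infinite, and
then, for every determined family `F` (under AD: all sets): if all monotone sets in `F` are Ramsey
then all sets in `F` are Ramsey below every infinite `X`.

**Scales.**  Let `G` be a set of functions whose games are determined.  Either `G` is unbounded, and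
then all determined sets `A` such that `x ∈ A` iff `y ∈ A` whenever `x i < y i ≤ g (x i)` for all `i`,
for some `g ∈ G`, are Ramsey below every infinite `X`.  Or `G` is bounded, and then, for every
determined family `F`: if all sets `B ∈ F` such that `x ∈ B` iff `y ∈ B` for all infinite `x`, `y`
which are `g`-close for some `g ∈ G` are Ramsey then all sets in `F` are Ramsey below every infinite
`X`. -/
theorem result :
    (∀ R : Set ((ℕ → ℕ) × (ℕ → ℕ)), R.Countable → (∀ r ∈ R, StrictMono r.1 ∧ StrictMono r.2) →
      ((∃ (N : ℕ) (r : ℕ → (ℕ → ℕ) × (ℕ → ℕ)), (∀ i < N, r i ∈ R) ∧ (domain N r).Finite) ∧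
        ∀ A : Set C, DeterminedSet A → ∀ X, Inf X → Monotone' R X A → RamseyBelow X A) ∨
      ((∀ (N : ℕ) (r : ℕ → (ℕ → ℕ) × (ℕ → ℕ)), (∀ i < N, r i ∈ R) → (domain N r).Infinite) ∧
        ∀ F : Set (Set C), Family F →
          (∀ B ∈ F, Monotone' R (fun _ => true) B → Ramsey B) →
          ∀ A ∈ F, ∀ X, Inf X → RamseyBelow X A)) ∧
    (∀ G : Set (ℕ → ℕ), (∀ f : (ℕ → ℕ) → (ℕ → ℕ), Continuous f → Determined (f ⁻¹' G)) →
      (¬ Bounded G ∧
        ∀ A : Set C, DeterminedSet A →
          (∀ g ∈ G, ∀ x y : ℕ → ℕ, StrictMono x → StrictMono y →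
            (∀ i, x i < y i ∧ y i ≤ g (x i)) →
            (chi (Set.range x) ∈ A ↔ chi (Set.range y) ∈ A)) →
          ∀ X, Inf X → RamseyBelow X A) ∨
      (Bounded G ∧
        ∀ F : Set (Set C), Family F →
          (∀ B ∈ F, (∀ g ∈ G, ∀ x y : C, Inf x → Inf y → Close g x y → (x ∈ B ↔ y ∈ B)) →
            Ramsey B) →
          ∀ A ∈ F, ∀ X, Inf X → RamseyBelow X A)) := by
  classical
  refine ⟨fun R hRc hR => ?_, fun G hG => ?_⟩
  · have hset : ∀ (N : ℕ) (r : ℕ → (ℕ → ℕ) × (ℕ → ℕ)),
        domain N r = {n | ∃ m, Chain ((List.range N).map r) n m} := by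
      intro N r
      ext n
      exact (chain_seq N r n).symm
    by_cases h : ∃ (N : ℕ) (r : ℕ → (ℕ → ℕ) × (ℕ → ℕ)), (∀ i < N, r i ∈ R) ∧
        (domain N r).Finite
    · left
      refine ⟨h, fun A hdet X hX hA => ?_⟩
      obtain ⟨N, r, hr, hfin⟩ := h
      rw [hset] at hfin
      refine finite_chain R hR ((List.range N).map r) (fun s hs => ?_) hfin A hdet X hX hA
      obtain ⟨i, hi, rfl⟩ := List.mem_map.1 hs
      exact hr i (List.mem_range.1 hi)
    · right
      push Not at h
      refine ⟨h, fun F hF' hmon A hA X hX => ?_⟩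
      have hF : Closed F := hF'.closed
      have hinf : ∀ l : List ((ℕ → ℕ) × (ℕ → ℕ)), (∀ r ∈ l, r ∈ R) →
          {n | ∃ m, Chain l n m}.Infinite := by
        intro l hl
        have hl2 : (List.range l.length).map (fun i => l.getD i (id, id)) = l := by
          refine List.ext_getElem (by simp) fun i h1 h2 => ?_
          simp only [List.getElem_map, List.getElem_range]
          exact List.getD_eq_getElem _ _ h2
        have h6 := h l.length (fun i => l.getD i (id, id)) (fun i hi => by
          rw [List.getD_eq_getElem _ _ hi]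
          exact hl _ (List.getElem_mem hi))
        rw [hset, hl2] at h6
        exact h6
      refine below hX (infinite_chain R hR hRc hinf F hF (fun B hB hBm => hmon B hB ?_)
        (hF.preimage A hA _ (continuous_emb X)))
      exact fun r hr x hx _ => hBm r hr x hx
  · by_cases hB : Bounded G
    · right
      refine ⟨hB, fun F hF hinv A hA X hX => ?_⟩
      obtain ⟨h, hh⟩ := hB
      refine below hX (coarse_bounded G h (fun g hg => eventually_atTop.1 (hh g hg)) F
        hF.closed (fun B hBF hBG => hinv B hBF fun g hg x y hx hy hxy => ?_)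
        (hF.preimage A hA _ (continuous_emb X)))
      obtain ⟨N, hN⟩ := eventually_atTop.1 hxy
      exact hBG g hg x y hx hy ⟨N, fun n hn => (hN n hn).1, fun n hn => (hN n hn).2⟩
    · left
      refine ⟨hB, fun A hdet hA X hX => coarse_unbounded G hG ?_ A hdet hA X hX⟩
      rintro ⟨h, hh⟩
      exact hB ⟨h, fun g hg => eventually_atTop.2 (hh g hg)⟩

end Pool.Agent.Results.MP_f36782_lc.Dichotomies
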