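import Pool.Agent.Work.MP_f36782_h82.Local
import Pool.Agent.Work.MP_f36782_h82.Sigma
import Pool.Agent.Work.MP_f36782_h82.Trip

set_option autoImplicit false

/-!
# The Ramsey property of invariant sets under the Axiom of Determinacy

Authors: helper82, helper69 (the reduction to tail sets), helper20.

Under AD, for which equivalence relations is the Ramsey property of all invariant sets of reals as
hard as the Ramsey property of all sets of reals?

* This is so if the relation is covered, on the infinite sets, by countably many closed relations on
  Cantor space in whose sections at finite sets all finite sets are isolated.  Examples: relations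
  covered by the graphs of countably many continuous maps of Cantor space (truth table equivalence,
  many-one equivalence, the orbits of any countable group of homeomorphisms).
* The local form (homogeneous sets below every infinite `X`) is equivalent to the full question for
  all countable Borel equivalence relations (for example Turing equivalence, for which the plain
  form follows from Martin's cone theorem).
* For tail sets one may add a condition about generic subsets.
* The Borel map `tmap` shows that the first statement is sharp: its fibres have at most three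
  elements, and under AD the preimages `tmap ⁻¹' A` of all sets `A` are Ramsey, in particular all
  unions of fibres are Ramsey.
-/

namespace Pool.Agent.Results.MP_f36782_lc.InvariantSets

open Pool.Agent.Work.RamseyAD Filter

/-- The points of Cantor space `C` code the sets of natural numbers.  All games on `ℕ` whose payoff
set is `f ⁻¹' A`, `f` continuous, are determined. -/
def DeterminedSet (A : Set C) : Prop := ∀ f : (ℕ → ℕ) → C, Continuous f → Determined (f ⁻¹' A)

/-- Below every infinite `X` there is a homogeneous infinite set `H`. -/
def LocallyRamsey (A : Set C) : Prop := ∀ X, Inf X → ∃ H, Inf H ∧ Sub H X ∧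
  ((∀ x, Inf x → Sub x H → x ∈ A) ∨ (∀ x, Inf x → Sub x H → x ∉ A))

/-- `F` is closed under complements, countable unions, continuous preimages and the category
quantifier, and its members are determined. -/
structure Family (F : Set (Set C)) : Prop where
  compl : ∀ A ∈ F, Aᶜ ∈ F
  union : ∀ A : ℕ → Set C, (∀ n, A n ∈ F) → (⋃ n, A n) ∈ F
  preimage : ∀ A ∈ F, ∀ f : C → C, Continuous f → f ⁻¹' A ∈ F
  category : ∀ A ∈ F, {x | ∀ᶠ y in residual C, join x y ∈ A} ∈ F
  determined : ∀ A ∈ F, DeterminedSet A

/-- All sets `{x | k ∈ g x}` are completely Ramsey (for example if `g` is a Borel map). -/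
def RamseyMeasurable (g : C → C) : Prop :=
  ∀ (k : ℕ) (s : Finset ℕ) (K : Set ℕ), K.Infinite → ∃ K' : Set ℕ, K' ⊆ K ∧ K'.Infinite ∧
    ((∀ y : Set ℕ, y ⊆ K' → y.Infinite → g (code ((s : Set ℕ) ∪ y)) k = true) ∨
      (∀ y : Set ℕ, y ⊆ K' → y.Infinite → ¬ g (code ((s : Set ℕ) ∪ y)) k = true))

/-- In the sections of `K` at finite sets `s` all finite sets `t` are isolated. -/
def FiniteIsolated (K : Set (C × C)) : Prop :=
  ∀ s t : Finset ℕ, ∃ v, ∀ y, (code s, y) ∈ K → (∀ i < v, y i = code t i) → y = code t

/-- `B` is a union of classes of `E`. -/
def Invariant (E : C → C → Prop) (B : Set C) : Prop := ∀ x y, E x y → (x ∈ B ↔ y ∈ B)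

theorem code_eq (s : Finset ℕ) : code (s : Set ℕ) = ind s := by
  funext k
  unfold code ind
  exact decide_eq_decide.2 Finset.mem_coe

theorem Family.closed {F : Set (Set C)} (hF : Family F) : Closed F :=
  ⟨hF.compl, hF.union, hF.preimage, hF.category, hF.determined⟩

theorem locally {F : Set (Set C)} (hF : Family F) (h : ∀ A ∈ F, Ramsey A) (A : Set C)
    (hA : A ∈ F) : LocallyRamsey A :=
  fun X hX => below hX (h _ (hF.preimage A hA _ (continuous_emb X)))

/-- Let `F` be a determined family (under AD: all sets of reals), and let `E` be an equivalence
relation such that the `E`-saturations of the sets in `F` are in `F`.  Each of the following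
statements implies that all sets in `F` are Ramsey below every infinite set.
(1) On the infinite sets `E` is covered by closed relations `K n` such that all finite sets are
isolated in the sections of `K n` at finite sets (for example by the graphs of continuous maps), and
all `E`-invariant sets in `F` are Ramsey.
(2) On the infinite sets `E` is covered by the graphs of countably many Ramsey measurable maps, and
all `E`-invariant sets in `F` are Ramsey below every infinite set.
(3) All tail sets in `F` which are invariant under generic subsets or everywhere small are Ramsey.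

(4) The Borel map `tmap` is idempotent with `x ⊆ tmap x`, its fibres have at most three elements, and
the preimage of every determined set is Ramsey (so every determined union of fibres is Ramsey). -/
theorem result :
    (∀ F : Set (Set C), Family F →
      (∀ E : C → C → Prop, Equivalence E → (∀ Q ∈ F, {z | ∃ x, E z x ∧ x ∈ Q} ∈ F) →
        (∀ K : ℕ → Set (C × C), (∀ n, IsClosed (K n)) → (∀ n, FiniteIsolated (K n)) →
          (∀ x y, Inf x → Inf y → E x y → ∃ n, (x, y) ∈ K n) →
          (∀ B ∈ F, Invariant E B → Ramsey B) → ∀ A ∈ F, LocallyRamsey A) ∧
        (∀ g : ℕ → C → C, (∀ n, RamseyMeasurable (g n)) →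
          (∀ x y, Inf x → Inf y → E x y → ∃ n, g n x = y) →
          (∀ B ∈ F, Invariant E B → LocallyRamsey B) → ∀ A ∈ F, LocallyRamsey A)) ∧
      ((∀ D ∈ F, Tail D → (GenInv D ∨ GenSmall D) → Ramsey D) → ∀ A ∈ F, LocallyRamsey A)) ∧
    Measurable tmap ∧ (∀ y, (tmap ⁻¹' {y}).encard ≤ 3) ∧
      (∀ x, tmap (tmap x) = tmap x ∧ Sub x (tmap x)) ∧
      ∀ A : Set C, DeterminedSet A → Ramsey (tmap ⁻¹' A) := by
  refine ⟨fun F hF => ⟨fun E hE hsat => ⟨fun K hK hiso hEK hB => ?_, fun g hg hEg hB => ?_⟩,
    fun hD => ?_⟩, measurable_tmap, tmap_fibre, fun x => ⟨tmap_tmap x, sub_tmap x⟩, tmap_ramsey⟩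
  · refine locally hF fun A hA => sigma_reduction E hE K hK hEK (fun n s t => ?_) F hF.closed
      hsat hB hA
    obtain ⟨v, hv⟩ := hiso n s t
    rw [code_eq, code_eq] at hv
    exact ⟨v, hv⟩
  · refine locally hF fun A hA => local_reduction E hE g (fun n k s K _ hK => ?_) hEg F hF.closed
      hsat hB hA
    exact hg n k s K hK
  · exact locally hF fun A hA => tail_reduction hF.closed hD hA

end Pool.Agent.Results.MP_f36782_lc.InvariantSets
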