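import Pool.Agent.Work.MP_f36782_bd.Final
import Pool.Agent.Work.MP_f36782_lf.B_BRF
import Pool.Agent.Work.MP_f36782_lf.B_BRN
import Pool.Agent.Work.MP_f36782_lf.B_CBM
import Pool.Agent.Work.MP_f36782_lf.B_CDB
import Pool.Agent.Work.MP_f36782_lf.B_CHN
import Pool.Agent.Work.MP_f36782_lf.B_CLF
import Pool.Agent.Work.MP_f36782_lf.B_CPR
import Pool.Agent.Work.MP_f36782_lf.B_DIA
import Pool.Agent.Work.MP_f36782_lf.B_FMA
import Pool.Agent.Work.MP_f36782_lf.B_FNA
import Pool.Agent.Work.MP_f36782_lf.B_FRM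
import Pool.Agent.Work.MP_f36782_lf.B_INB
import Pool.Agent.Work.MP_f36782_lf.B_INJ
import Pool.Agent.Work.MP_f36782_lf.B_KBM
import Pool.Agent.Work.MP_f36782_lf.B_LIC
import Pool.Agent.Work.MP_f36782_lf.B_LVC
import Pool.Agent.Work.MP_f36782_lf.B_LVM
import Pool.Agent.Work.MP_f36782_lf.B_MAB
import Pool.Agent.Work.MP_f36782_lf.B_MPR
import Pool.Agent.Work.MP_f36782_lf.B_MSB
import Pool.Agent.Work.MP_f36782_lf.B_MST
import Pool.Agent.Work.MP_f36782_lf.B_NOL
import Pool.Agent.Work.MP_f36782_lf.B_OWN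
import Pool.Agent.Work.MP_f36782_lf.B_RLB
import Pool.Agent.Work.MP_f36782_lf.B_RLC
import Pool.Agent.Work.MP_f36782_lf.B_RLM
import Pool.Agent.Work.MP_f36782_lf.B_RLR
import Pool.Agent.Work.MP_f36782_lf.B_RLX
import Pool.Agent.Work.MP_f36782_lf.B_SIC
import Pool.Agent.Work.MP_f36782_lf.B_TWO
import Pool.Agent.Work.MP_f36782_lf.B_ZET
import Pool.Agent.Work.MP_f36782_lf.B_ZOF
import Pool.Agent.Work.MP_f36782_lg.Final
import Pool.Agent.Work.MP_f36782_lg.B_CLM
import Pool.Agent.Work.MP_f36782_lg.B_DNX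
import Pool.Agent.Work.MP_f36782_lg.B_ENG
import Pool.Agent.Work.MP_f36782_lg.B_PAX
import Pool.Agent.Work.MP_f36782_lg.B_PCM
import Pool.Agent.Work.MP_f36782_lg.B_STM
import Pool.Agent.Work.MP_f36782_lg.B_STR
import Pool.Agent.Work.MP_f36782_lg.B_STT

set_option autoImplicit false

namespace Pool.Agent.Results.MP_f36782_lc.LocalFailure

open Pool.Agent.Work.RamseyAD Pool.LF

/-- The determinacy of the games on one set `A` does not imply that `A` is Ramsey.

Let `F` be a σ-algebra of determined sets of reals which contains the open sets and is closed under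
preimages by Borel maps; by the first part, Borel determinacy, the Borel sets are such a family.  `Op` is
the type of the operations `S : Set C → Set (ℕ → ℕ)`.  Positive operations are obtained by countable
unions and intersections, iterated, from constants in `F` and the operations `A ↦ f ⁻¹' A`, `f` partial
continuous (`PCont`: continuous on a `G_δ` set, and `∅` elsewhere); open positive operations are countable
unions of finite intersections of these.

For any `ℵ₁` many operations `S t` there is a tail set `A` which is not Ramsey such that all games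
`S t A` and their complements are determined, if each `S t` is positive, or a signed difference
(`z ∈ S t A` iff (`z ∈ B` iff `z ∈ V A \ V' A`), `B ∈ F`, `V` open positive, `V'` positive), or a Boolean
combination of two partial continuous preimages and sets in `F`. -/
theorem result :
    DetBorel {S : Set (ℕ → ℕ) | MeasurableSet S} ∧
    ∀ F : Set (Set (ℕ → ℕ)), DetBorel F → ∀ (T : Type) (S : T → Op),
      (∀ t, PosOp F PCont (S t) ∨ XDiff F PCont (S t) ∨ Two F PCont (S t)) →
      Cardinal.mk T ≤ Cardinal.aleph 1 →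
      ∃ A : Set C, Tail A ∧ ¬ Ramsey A ∧ ∀ t, Determined (S t A) ∧ Determined (S t A)ᶜ := by
  have hBor : DetBorel {S : Set (ℕ → ℕ) | MeasurableSet S} :=
    { compl := fun S (hS : MeasurableSet S) => hS.compl
      union := fun S (hS : ∀ n, MeasurableSet (S n)) => MeasurableSet.iUnion hS
      preimage := fun S (hS : MeasurableSet S) g hg => hg hS
      isOpen := fun S hS => hS.measurableSet
      det := fun S (hS : MeasurableSet S) => Pool.BD.borel_determinacy S hS }
  have hBRN := p_BRN p_INJ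
  have hCPR := p_CPR p_DIA
  have hMAB := p_MAB p_MPR
  have hLVM := p_LVM p_LVC
  have hZET := p_ZET p_LVC
  have hZOF := p_ZOF hZET hLVM p_KBM
  have hFRM := p_FRM p_MSB p_MST p_MPR hMAB hCPR (p_CBM hCPR p_BRF) (p_CDB p_BRF hCPR) p_BRF hLVM
    p_KBM p_RLM (p_RLR p_LVC) (p_RLC p_NOL p_LVC) (p_RLB p_LVC) p_RLX
  have hPAX := Pool.LG.p_PAX p_INB hLVM (Pool.LG.p_CLM p_INB p_LVC hLVM)
  have hSTM := Pool.LG.p_STM p_INB p_LVC hLVM hZET hZOF hFRM hPAX
  have hSTR := Pool.LG.p_STR p_OWN p_BRF p_FMA p_LVC hFRM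
  have hSTT := Pool.LG.p_STT p_OWN p_BRF p_FMA p_LVC p_CLF hFRM
  have hFNA := p_FNA hBRN p_CLF
  have hDNX := Pool.LG.p_DNX (Pool.LG.p_PCM p_LVC)
  refine ⟨hBor, fun F hF T S hS hT => ?_⟩
  refine Pool.LG.fin8_main Pool.LG.p_ENG hPAX p_SIC hSTM hSTR hSTT (p_LIC p_INB) p_CHN hFNA hDNX F hF
    T hT S fun t => ?_
  rcases hS t with h | h | h
  · exact Pool.LG.fin8_pos hF h
  · exact h
  · exact p_TWO F hF PCont (S t) h

end Pool.Agent.Results.MP_f36782_lc.LocalFailure
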