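import Pool.Agent.Work.MP_f36782_bd.Final
import Pool.Agent.Work.MP_f36782_lf.Final7
import Pool.Agent.Work.MP_f36782_lf.B_BFR
import Pool.Agent.Work.MP_f36782_lf.B_BGM
import Pool.Agent.Work.MP_f36782_lf.B_BRF
import Pool.Agent.Work.MP_f36782_lf.B_BRN
import Pool.Agent.Work.MP_f36782_lf.B_CMP
import Pool.Agent.Work.MP_f36782_lf.B_CNF
import Pool.Agent.Work.MP_f36782_lf.B_ENP
import Pool.Agent.Work.MP_f36782_lf.B_ENU
import Pool.Agent.Work.MP_f36782_lf.B_EQB
import Pool.Agent.Work.MP_f36782_lf.B_FDM
import Pool.Agent.Work.MP_f36782_lf.B_FIN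
import Pool.Agent.Work.MP_f36782_lf.B_FMA
import Pool.Agent.Work.MP_f36782_lf.B_GST
import Pool.Agent.Work.MP_f36782_lf.B_INJ
import Pool.Agent.Work.MP_f36782_lf.B_MEF
import Pool.Agent.Work.MP_f36782_lf.B_NEU
import Pool.Agent.Work.MP_f36782_lf.B_ONS
import Pool.Agent.Work.MP_f36782_lf.B_OWN
import Pool.Agent.Work.MP_f36782_lf.B_PFM
import Pool.Agent.Work.MP_f36782_lf.B_PUM
import Pool.Agent.Work.MP_f36782_lf.B_RBS
import Pool.Agent.Work.MP_f36782_lf.B_RGS
import Pool.Agent.Work.MP_f36782_lf.B_RNG
import Pool.Agent.Work.MP_f36782_lf.B_RNU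
import Pool.Agent.Work.MP_f36782_lf.B_RPS
import Pool.Agent.Work.MP_f36782_lf.B_SIF
import Pool.Agent.Work.MP_f36782_lf.B_SST
import Pool.Agent.Work.MP_f36782_lf.B_ZER

set_option autoImplicit false

namespace Pool.Agent.Results.MP_f36782_lc.LocalFailureBorel

open Pool.Agent.Work.RamseyAD Pool.LF

/-- The determinacy of the games which are Borel in `A` does not imply that `A` is Ramsey.

Let `F` be a σ-algebra of determined sets of reals which contains the open sets and is closed under
continuous preimages; by the first part, Borel determinacy, the Borel sets are such a family.  Let every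
family of functions `ℕ → ℕ` indexed by `T` be eventually dominated by one function (for example `T`
countable).  Let every `S t`, `t : T`, be a positive operation (obtained by countable unions and
intersections, iterated, from constants in `F` and the operations `A ↦ f ⁻¹' A`, `f` Borel), or a finite
Boolean combination of open positive operations (countable unions of finite intersections of these), or,
if `F` is closed under projections, a Borel operation (obtained from the same operations by complements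
and countable unions).  Then any `A₀` can be changed to a set `A` (a tail set if `A₀` is) such that all
`S t A` and their complements are determined; for every infinite `X` there is an infinite `Y ⊆ X` such that
`A` and `A₀` are equal on the infinite subsets of `Y`.  In particular there is such a tail set `A` which is
not Ramsey. -/
theorem result :
    DetAlgebra {S : Set (ℕ → ℕ) | MeasurableSet S} ∧
    ∀ F : Set (Set (ℕ → ℕ)), DetAlgebra F → ∀ (T : Type) (S : T → Op),
      (∀ t, PosOp F Measurable (S t) ∨ Combo (OpenPos F Measurable) (S t) ∨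
        (ProjClosed F ∧ BorOp F Measurable (S t))) →
      (∀ ρ : T → ℕ → ℕ, ∃ g : ℕ → ℕ, ∀ t, ∃ N, ∀ n, N ≤ n → ρ t n ≤ g n) →
      (∃ A : Set C, Tail A ∧ ¬ Ramsey A ∧ ∀ t, Determined (S t A) ∧ Determined (S t A)ᶜ) ∧
      ∀ A₀ : Set C, ∃ A : Set C, (∀ t, Determined (S t A) ∧ Determined (S t A)ᶜ) ∧
        (Tail A₀ → Tail A) ∧
        ∀ X, Inf X → ∃ Y, Inf Y ∧ Sub Y X ∧ ∀ x, Inf x → Sub x Y → (x ∈ A ↔ x ∈ A₀) := by
  have hBor : DetAlgebra {S : Set (ℕ → ℕ) | MeasurableSet S} :=
    { compl := fun S (hS : MeasurableSet S) => hS.compl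
      union := fun S (hS : ∀ n, MeasurableSet (S n)) => MeasurableSet.iUnion hS
      preimage := fun S (hS : MeasurableSet S) g hg => hg.measurable hS
      isOpen := fun S hS => hS.measurableSet
      det := fun S (hS : MeasurableSet S) => Pool.BD.borel_determinacy S hS }
  have hRPS := p_RPS p_FIN p_PUM p_FMA
  have hRBS := p_RBS p_ZER (p_GST p_ZER) p_SST (p_MEF p_FIN p_PUM)
  have hRGS := p_RGS p_FIN (p_BGM p_FIN p_PUM)
  have hONS := p_ONS (p_SIF p_FDM) p_RNG p_RNU p_BRF p_OWN p_NEU
  refine ⟨hBor, fun F hF T S hS hT => ?_⟩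
  have h2 : ∀ A₀ : Set C, ∃ A : Set C, (∀ t, Determined (S t A) ∧ Determined (S t A)ᶜ) ∧
      (Tail A₀ → Tail A) ∧
      ∀ X, Inf X → ∃ Y, Inf Y ∧ Sub Y X ∧ ∀ x, Inf x → Sub x Y → (x ∈ A ↔ x ∈ A₀) :=
    fun A₀ => fin7_main p_CNF p_PFM p_ENU (p_ENP p_FMA) p_EQB hRPS hRBS p_BFR hRGS hONS p_CMP F
      hF T hT S hS A₀
  exact ⟨fin4_tail (p_BRN p_INJ) _ h2, h2⟩

end Pool.Agent.Results.MP_f36782_lc.LocalFailureBorel
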